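import Pool.Agent.H98.CE.Targets

/-!
# DS3: the moments of the dressed functional (MP_65efe8_pr)
-/

set_option autoImplicit false

open MeasureTheory ProbabilityTheory Filter Topology
open Pool.Agent.H95 Pool.Agent.H95.Cop
open Pool.Agent.H55.CG (pz VV Mo)

namespace Pool.Agent.H41.CE

open Pool.Agent.H98.CE

theorem oa_unique {n ℓ M : ℕ} {lab : (ℕ → ℝ) → ℕ} {i i' : ℕ} {x : ℕ → ℝ} (hi : i < M)
    (h : oa n ℓ M lab i x) (h' : oa n ℓ M lab i' x) : i = i' :=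
  (h' i hi).1 ((h i hi).2 rfl)

theorem oa_meas {n ℓ M : ℕ} {lab : (ℕ → ℝ) → ℕ} (hl : Measurable lab) (i : ℕ) :
    MeasurableSet {x : ℕ → ℝ | oa n ℓ M lab i x} := by
  have h0 : {x : ℕ → ℝ | oa n ℓ M lab i x} =
      ⋂ k : ℕ, ⋂ (_ : k < M), {x | (1 ≤ lab (shift (k * (n * ℓ)) x) ↔ k = i)} := by
    ext x
    simp [oa]
  rw [h0]
  refine MeasurableSet.iInter fun k => MeasurableSet.iInter fun _ => ?_
  have h1 : MeasurableSet {x : ℕ → ℝ | 1 ≤ lab (shift (k * (n * ℓ)) x)} :=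
    measurableSet_le measurable_const (hl.comp (measurable_shift _))
  by_cases hk : k = i
  · simpa [hk] using h1
  · have h2 : {x : ℕ → ℝ | (1 ≤ lab (shift (k * (n * ℓ)) x) ↔ k = i)} =
        {x : ℕ → ℝ | 1 ≤ lab (shift (k * (n * ℓ)) x)}ᶜ := by
      ext x
      simp only [Set.mem_setOf_eq, Set.mem_compl_iff]
      constructor
      · intro h h3
        exact hk (h.1 h3)
      · intro h
        exact ⟨fun h3 => absurd h3 h, fun h3 => absurd h3 hk⟩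
    rw [h2]
    exact h1.compl

theorem dw_meas {K : PMF ℕ} {ℓ : ℕ} {α κ : ℝ} {n glo ghi k M lo hi : ℕ} {w : (ℕ → ℝ) → ℝ}
    {lab : (ℕ → ℝ) → ℕ} (hl : Measurable lab) (hw : Measurable w)
    (hf : ∀ t, Measurable fun x : ℕ → ℝ => fw K ℓ α κ n glo ghi x k t)
    (hs : Measurable fun x : ℕ → ℝ => sf K ℓ α κ n glo ghi k x) :
    Measurable (dw K ℓ α κ n glo ghi k M lo hi w lab) := by
  unfold dw
  refine Finset.measurable_fun_sum _ fun i _ => ?_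
  refine Measurable.ite (oa_meas hl i) ?_ measurable_const
  exact ((hf (i * n)).mul (hw.comp (measurable_shift _))).mul (hs.comp (measurable_shift _))

theorem dw_nonneg {K : PMF ℕ} {ℓ : ℕ} {α κ : ℝ} {n glo ghi k M lo hi : ℕ} {w : (ℕ → ℝ) → ℝ}
    {lab : (ℕ → ℝ) → ℕ} (hw : ∀ x, 0 ≤ w x)
    (hf : ∀ (t : ℕ) (x : ℕ → ℝ), 1 ≤ fw K ℓ α κ n glo ghi x k t ∧
      fw K ℓ α κ n glo ghi x k t ≤ 2)
    (hs : ∀ x : ℕ → ℝ, 1 ≤ sf K ℓ α κ n glo ghi k x ∧ sf K ℓ α κ n glo ghi k x ≤ 2)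
    (x : ℕ → ℝ) : 0 ≤ dw K ℓ α κ n glo ghi k M lo hi w lab x := by
  unfold dw
  refine Finset.sum_nonneg fun i _ => ?_
  split_ifs
  · exact mul_nonneg (mul_nonneg (by linarith [(hf (i * n) x).1]) (hw _))
      (by linarith [(hs (shift ((i + 1) * (n * ℓ)) x)).1])
  · exact le_refl _

theorem dw_rpow_le {K : PMF ℕ} {ℓ : ℕ} {α κ : ℝ} {n glo ghi k M lo hi : ℕ} {w : (ℕ → ℝ) → ℝ}
    {lab : (ℕ → ℝ) → ℕ} (hw : ∀ x, 0 ≤ w x)
    (hf : ∀ (t : ℕ) (x : ℕ → ℝ), 1 ≤ fw K ℓ α κ n glo ghi x k t ∧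
      fw K ℓ α κ n glo ghi x k t ≤ 2)
    (hs : ∀ x : ℕ → ℝ, 1 ≤ sf K ℓ α κ n glo ghi k x ∧ sf K ℓ α κ n glo ghi k x ≤ 2)
    (hhi : hi ≤ M) {p : ℝ} (hp : 0 < p) (x : ℕ → ℝ) :
    dw K ℓ α κ n glo ghi k M lo hi w lab x ^ p ≤
      ∑ i ∈ Finset.Ico lo hi, (4 : ℝ) ^ p * w (shift (i * (n * ℓ)) x) ^ p := by
  have hnn : ∀ i ∈ Finset.Ico lo hi, 0 ≤ (4 : ℝ) ^ p * w (shift (i * (n * ℓ)) x) ^ p :=
    fun i _ => mul_nonneg (Real.rpow_nonneg (by norm_num) _) (Real.rpow_nonneg (hw _) _)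
  by_cases h : ∃ i ∈ Finset.Ico lo hi, oa n ℓ M lab i x
  · obtain ⟨i, hi', ho⟩ := h
    have h1 : dw K ℓ α κ n glo ghi k M lo hi w lab x = fw K ℓ α κ n glo ghi x k (i * n) *
        w (shift (i * (n * ℓ)) x) * sf K ℓ α κ n glo ghi k (shift ((i + 1) * (n * ℓ)) x) := by
      unfold dw
      rw [Finset.sum_eq_single_of_mem i hi', if_pos ho]
      intro j hj hji
      refine if_neg fun h' => hji (oa_unique ?_ h' ho)
      have := (Finset.mem_Ico.1 hj).2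
      omega
    have h2 := hf (i * n) x
    have h3 := hs (shift ((i + 1) * (n * ℓ)) x)
    have h4 := hw (shift (i * (n * ℓ)) x)
    have h5 : fw K ℓ α κ n glo ghi x k (i * n) * w (shift (i * (n * ℓ)) x) *
        sf K ℓ α κ n glo ghi k (shift ((i + 1) * (n * ℓ)) x) ≤
        4 * w (shift (i * (n * ℓ)) x) := by
      calc fw K ℓ α κ n glo ghi x k (i * n) * w (shift (i * (n * ℓ)) x) *
          sf K ℓ α κ n glo ghi k (shift ((i + 1) * (n * ℓ)) x) ≤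
          (2 * w (shift (i * (n * ℓ)) x)) * 2 := by
            refine mul_le_mul (mul_le_mul_of_nonneg_right h2.2 h4) h3.2 (by linarith [h3.1])
              (by positivity)
        _ = _ := by ring
    rw [h1]
    calc (fw K ℓ α κ n glo ghi x k (i * n) * w (shift (i * (n * ℓ)) x) *
        sf K ℓ α κ n glo ghi k (shift ((i + 1) * (n * ℓ)) x)) ^ p
        ≤ (4 * w (shift (i * (n * ℓ)) x)) ^ p := by
          refine Real.rpow_le_rpow ?_ h5 hp.le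
          exact mul_nonneg (mul_nonneg (by linarith [h2.1]) h4) (by linarith [h3.1])
      _ = (4 : ℝ) ^ p * w (shift (i * (n * ℓ)) x) ^ p := Real.mul_rpow (by norm_num) h4
      _ ≤ _ := Finset.single_le_sum (f := fun i => (4 : ℝ) ^ p * w (shift (i * (n * ℓ)) x) ^ p)
          hnn hi'
  · have h1 : dw K ℓ α κ n glo ghi k M lo hi w lab x = 0 := by
      unfold dw
      refine Finset.sum_eq_zero fun i hi' => if_neg fun h' => h ⟨i, hi', h'⟩
    rw [h1, Real.zero_rpow hp.ne']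
    exact Finset.sum_nonneg hnn

theorem dw_mom {K : PMF ℕ} {ν : Measure ℝ} [IsProbabilityMeasure ν] {ℓ : ℕ} {α κ : ℝ}
    {n glo ghi k M lo hi : ℕ} {w : (ℕ → ℝ) → ℝ}
    {lab : (ℕ → ℝ) → ℕ} (hl : Measurable lab) (hwm : Measurable w) (hw : ∀ x, 0 ≤ w x)
    (hfm : ∀ t, Measurable fun x : ℕ → ℝ => fw K ℓ α κ n glo ghi x k t)
    (hsm : Measurable fun x : ℕ → ℝ => sf K ℓ α κ n glo ghi k x)
    (hf : ∀ (t : ℕ) (x : ℕ → ℝ), 1 ≤ fw K ℓ α κ n glo ghi x k t ∧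
      fw K ℓ α κ n glo ghi x k t ≤ 2)
    (hs : ∀ x : ℕ → ℝ, 1 ≤ sf K ℓ α κ n glo ghi k x ∧ sf K ℓ α κ n glo ghi k x ≤ 2)
    (hhi : hi ≤ M) {p : ℝ} (hp : 0 < p)
    (hint : Integrable (fun x => w x ^ p) (iid ν)) :
    Integrable (fun x => dw K ℓ α κ n glo ghi k M lo hi w lab x ^ p) (iid ν) ∧
    ∫ x, dw K ℓ α κ n glo ghi k M lo hi w lab x ^ p ∂(iid ν) ≤
      ((hi - lo : ℕ) : ℝ) * ((4 : ℝ) ^ p * ∫ x, w x ^ p ∂(iid ν)) := by
  have hi1 : ∀ i, Integrable (fun x => (4 : ℝ) ^ p * w (shift (i * (n * ℓ)) x) ^ p) (iid ν) :=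
    fun i => ((measurePreserving_shift ν (i * (n * ℓ))).integrable_comp_of_integrable
      hint).const_mul _
  have hi2 : Integrable (fun x => ∑ i ∈ Finset.Ico lo hi,
      (4 : ℝ) ^ p * w (shift (i * (n * ℓ)) x) ^ p) (iid ν) :=
    integrable_finset_sum _ fun i _ => hi1 i
  have hm : Measurable (dw K ℓ α κ n glo ghi k M lo hi w lab) := dw_meas hl hwm hfm hsm
  have hi3 : Integrable (fun x => dw K ℓ α κ n glo ghi k M lo hi w lab x ^ p) (iid ν) := by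
    refine hi2.mono' (hm.pow_const p).aestronglyMeasurable (Eventually.of_forall fun x => ?_)
    rw [Real.norm_eq_abs, abs_of_nonneg (Real.rpow_nonneg (dw_nonneg hw hf hs x) _)]
    exact dw_rpow_le hw hf hs hhi hp x
  refine ⟨hi3, ?_⟩
  calc ∫ x, dw K ℓ α κ n glo ghi k M lo hi w lab x ^ p ∂(iid ν)
      ≤ ∫ x, ∑ i ∈ Finset.Ico lo hi, (4 : ℝ) ^ p * w (shift (i * (n * ℓ)) x) ^ p ∂(iid ν) :=
        integral_mono hi3 hi2 fun x => dw_rpow_le hw hf hs hhi hp x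
    _ = ∑ i ∈ Finset.Ico lo hi, ∫ x, (4 : ℝ) ^ p * w (shift (i * (n * ℓ)) x) ^ p ∂(iid ν) :=
        integral_finset_sum _ fun i _ => hi1 i
    _ = ∑ _i ∈ Finset.Ico lo hi, (4 : ℝ) ^ p * ∫ x, w x ^ p ∂(iid ν) := by
        refine Finset.sum_congr rfl fun i _ => ?_
        rw [integral_const_mul]
        congr 1
        have hmp := measurePreserving_shift ν (i * (n * ℓ))
        have h5 := integral_map (μ := iid ν) (φ := shift (i * (n * ℓ)))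
          (measurable_shift (i * (n * ℓ))).aemeasurable (f := fun x => w x ^ p)
          (hwm.pow_const p).aestronglyMeasurable
        rw [hmp.map_eq] at h5
        exact h5.symm
    _ = _ := by
        rw [Finset.sum_const, Nat.card_Ico, nsmul_eq_mul]

theorem pf_DS3 (hFWB : T_FWB) (hSFB : T_SFB) : T_DS3 := by
  intro K ν _ ℓ α β κ n J t C E w lab hℓ hα hκ hn hO glo ghi k M lo hi hglo hsum hk hM
  have hF := hFWB K ν ℓ α κ n glo ghi hℓ hα hκ hglo hsum k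
  have hS := hSFB K ν ℓ α κ n glo ghi hℓ hα hκ hglo hsum k
  have hhi : hi ≤ M := by
    have h1 : hi * n ≤ M * n := by omega
    exact Nat.le_of_mul_le_mul_right h1 (by omega)
  have hp1 : 0 < 1 / (1 + α) := by positivity
  have hp2 : 0 < 2 / (1 + α) := by positivity
  have hn' : (1 : ℝ) ≤ n := by exact_mod_cast hn
  have h1 := dw_mom (M := M) (lo := lo) (hi := hi) hO.ml hO.mw hO.nonneg (fun t => (hF t).1) hS.1
    (fun t => (hF t).2.1) hS.2.1 hhi hp1 hO.i1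
  have h2 := dw_mom (M := M) (lo := lo) (hi := hi) hO.ml hO.mw hO.nonneg (fun t => (hF t).1) hS.1
    (fun t => (hF t).2.1) hS.2.1 hhi hp2 hO.i2
  have hd : ((hi - lo : ℕ) : ℝ) ≤ M := by
    have : hi - lo ≤ M := by omega
    exact_mod_cast this
  have hd0 : (0 : ℝ) ≤ ((hi - lo : ℕ) : ℝ) := Nat.cast_nonneg _
  have hM0 : (0 : ℝ) ≤ M := Nat.cast_nonneg _
  have hI1 : 0 ≤ ∫ x, w x ^ (1 / (1 + α)) ∂(iid ν) :=
    integral_nonneg fun x => Real.rpow_nonneg (hO.nonneg x) _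
  have hI2 : 0 ≤ ∫ x, w x ^ (2 / (1 + α)) ∂(iid ν) :=
    integral_nonneg fun x => Real.rpow_nonneg (hO.nonneg x) _
  have hq1 : (4 : ℝ) ^ (1 / (1 + α)) ≤ 4 := by
    have h3 : (4 : ℝ) ^ (1 / (1 + α)) ≤ (4 : ℝ) ^ (1 : ℝ) := by
      refine Real.rpow_le_rpow_of_exponent_le (by norm_num) ?_
      rw [div_le_one (by linarith)]
      linarith
    rwa [Real.rpow_one] at h3
  have hq2 : (4 : ℝ) ^ (2 / (1 + α)) ≤ 16 := by
    have h3 : (4 : ℝ) ^ (2 / (1 + α)) ≤ (4 : ℝ) ^ (2 : ℝ) := by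
      refine Real.rpow_le_rpow_of_exponent_le (by norm_num) ?_
      rw [div_le_iff₀ (by linarith)]
      linarith
    have h4 : (4 : ℝ) ^ (2 : ℝ) = 16 := by
      rw [Real.rpow_two]
      norm_num
    rwa [h4] at h3
  have hq1' : (0 : ℝ) ≤ (4 : ℝ) ^ (1 / (1 + α)) := Real.rpow_nonneg (by norm_num) _
  have hq2' : (0 : ℝ) ≤ (4 : ℝ) ^ (2 / (1 + α)) := Real.rpow_nonneg (by norm_num) _
  have hnC : 0 ≤ (n : ℝ) * C := hI1.trans hO.u1
  have hE : 0 ≤ E := hI2.trans hO.u2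
  refine ⟨h1.1, h2.1, ?_, ?_⟩
  · refine h1.2.trans ?_
    push_cast
    calc ((hi - lo : ℕ) : ℝ) * ((4 : ℝ) ^ (1 / (1 + α)) * ∫ x, w x ^ (1 / (1 + α)) ∂(iid ν))
        ≤ M * (4 * (n * C)) := by
          refine mul_le_mul hd (mul_le_mul hq1 hO.u1 hI1 (by norm_num)) (by positivity) hM0
      _ = _ := by ring
  · refine h2.2.trans ?_
    calc ((hi - lo : ℕ) : ℝ) * ((4 : ℝ) ^ (2 / (1 + α)) * ∫ x, w x ^ (2 / (1 + α)) ∂(iid ν))
        ≤ M * (16 * E) := by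
          refine mul_le_mul hd (mul_le_mul hq2 hO.u2 hI2 (by norm_num)) (by positivity) hM0
      _ = _ := by ring

end Pool.Agent.H41.CE
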